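import Pool.Agent.P8H91.GO.Stm

/-! # Points with finite orbit are almost integral (package INT of project GO, helper93) -/

set_option autoImplicit false

namespace Pool.Agent.P8H93.GO

open Polynomial Pool.Agent.P8H91.GO

universe u v

/-- the growth of the values outside a valuation ring -/
theorem grow {R : Type v} {L : Type u} [CommRing R] [Field L] [Algebra R L] (V : ValuationSubring L)
    (hV : ∀ r : R, algebraMap R L r ∈ V) (F : R[X]) (δ : R) (hd : 2 ≤ F.natDegree)
    (hδ : algebraMap R L δ ≠ 0) (x : L)
    (hx : 1 < V.valuation (algebraMap R L F.leadingCoeff * x)) :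
    V.valuation (algebraMap R L F.leadingCoeff * x) <
      V.valuation (algebraMap R L F.leadingCoeff * (aeval x F / algebraMap R L δ)) := by
  have hle : ∀ r : R, V.valuation (algebraMap R L r) ≤ 1 := fun r =>
    (V.valuation_le_one_iff _).2 (hV r)
  obtain ⟨b, hb⟩ : ∃ b, b = algebraMap R L F.leadingCoeff := ⟨_, rfl⟩
  have hb1 : V.valuation b ≤ 1 := hb ▸ hle _
  rw [← hb] at hx ⊢
  rw [map_mul] at hx
  have hx1 : 1 < V.valuation x := lt_of_lt_of_le hx (mul_le_of_le_one_left' hb1)
  obtain ⟨n, hn⟩ : ∃ n, F.natDegree = n + 2 := ⟨F.natDegree - 2, by omega⟩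
  have hsum : aeval x F = ∑ i ∈ Finset.range (n + 2), algebraMap R L (F.coeff i) * x ^ i + b * x ^ (n + 2) := by
    rw [aeval_eq_sum_range, hn, Finset.sum_range_succ]
    simp only [Algebra.smul_def]
    rw [hb, leadingCoeff, hn]
  have hbig : ∀ i ∈ Finset.range (n + 2), V.valuation (algebraMap R L (F.coeff i) * x ^ i) <
      V.valuation (b * x ^ (n + 2)) := by
    intro i hi
    rw [Finset.mem_range] at hi
    rw [map_mul, map_mul, map_pow, map_pow]
    calc V.valuation (algebraMap R L (F.coeff i)) * V.valuation x ^ i
        ≤ V.valuation x ^ i := mul_le_of_le_one_left' (hle _)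
      _ ≤ V.valuation x ^ (n + 1) := pow_le_pow_right₀ hx1.le (by omega)
      _ < (V.valuation b * V.valuation x) * V.valuation x ^ (n + 1) := by
          have hpos : 0 < V.valuation x ^ (n + 1) := pow_pos (lt_trans zero_lt_one hx1) _
          exact lt_mul_of_one_lt_left hpos hx
      _ = V.valuation b * V.valuation x ^ (n + 2) := by
          rw [mul_assoc, ← pow_succ']
  have hb0 : V.valuation (b * x ^ (n + 2)) ≠ 0 := by
    have h1 := hbig 0 (Finset.mem_range.2 (by omega))
    exact (lt_of_le_of_lt zero_le h1).ne'
  have hval : V.valuation (aeval x F) = V.valuation (b * x ^ (n + 2)) := by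
    rw [hsum]
    exact Valuation.map_add_eq_of_lt_right _ (Valuation.map_sum_lt _ hb0 hbig)
  rw [map_mul, map_mul, map_div₀, hval, map_mul, map_pow]
  have h1 : V.valuation b * V.valuation x < (V.valuation b * V.valuation x) * (V.valuation b * V.valuation x) :=
    lt_mul_of_one_lt_left (lt_trans zero_lt_one hx) hx
  refine lt_of_lt_of_le h1 ?_
  have hδ1 : V.valuation (algebraMap R L δ) ≤ 1 := hle δ
  have hδ0 : 0 < V.valuation (algebraMap R L δ) := by
    rw [zero_lt_iff]
    exact (Valuation.ne_zero_iff _).2 hδ
  calc (V.valuation b * V.valuation x) * (V.valuation b * V.valuation x)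
      ≤ (V.valuation b * V.valuation x) * (V.valuation b * V.valuation x) * V.valuation x ^ n :=
        le_mul_of_one_le_right' (one_le_pow₀ hx1.le)
    _ = V.valuation b * (V.valuation b * V.valuation x ^ (n + 2)) := by
        rw [pow_add, pow_two]
        ac_rfl
    _ ≤ V.valuation b * (V.valuation b * V.valuation x ^ (n + 2) / V.valuation (algebraMap R L δ)) := by
        gcongr
        rw [le_div_iff₀ hδ0]
        exact mul_le_of_le_one_right' hδ1

/-- package INT -/
theorem int : S_INT.{u, v} := by
  intro R L _ _ _ F δ hd hδ hlc z hfin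
  by_contra hni
  have : IsIntegrallyClosedIn (integralClosure R L).toSubring L :=
    inferInstanceAs (IsIntegrallyClosedIn (integralClosure R L) L)
  obtain ⟨V, hAV, hV⟩ := Subring.exists_le_valuationSubring_of_isIntegrallyClosedIn
    (x := algebraMap R L F.leadingCoeff * z) (R := (integralClosure R L).toSubring) hni
  have hR : ∀ r : R, algebraMap R L r ∈ V := fun r => hAV ((integralClosure R L).algebraMap_mem r)
  obtain ⟨f, hf⟩ : ∃ f : L → L, f = fun x => aeval x F / algebraMap R L δ := ⟨_, rfl⟩
  rw [← hf] at hfin
  have h1 : ∀ m, 1 < V.valuation (algebraMap R L F.leadingCoeff * f^[m] z) ∧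
      V.valuation (algebraMap R L F.leadingCoeff * f^[m] z) <
      V.valuation (algebraMap R L F.leadingCoeff * f^[m + 1] z) := by
    intro m
    have step : ∀ x, 1 < V.valuation (algebraMap R L F.leadingCoeff * x) →
        V.valuation (algebraMap R L F.leadingCoeff * x) <
        V.valuation (algebraMap R L F.leadingCoeff * f x) := by
      intro x hx
      rw [hf]
      exact grow V hR F δ hd hδ x hx
    induction m with
    | zero =>
      have h2 : 1 < V.valuation (algebraMap R L F.leadingCoeff * z) := by
        rw [← not_le, V.valuation_le_one_iff]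
        exact hV
      exact ⟨h2, step z h2⟩
    | succ m ih =>
      have h2 := lt_trans ih.1 ih.2
      refine ⟨h2, ?_⟩
      rw [Function.iterate_succ_apply' f (m + 1)]
      exact step _ h2
  have hmono : StrictMono fun m => V.valuation (algebraMap R L F.leadingCoeff * f^[m] z) :=
    strictMono_nat_of_lt_succ fun m => (h1 m).2
  have hinj : Function.Injective fun m => f^[m] z := by
    intro a c hac
    apply hmono.injective
    simp only at hac ⊢
    rw [hac]
  exact Set.infinite_range_of_injective hinj hfin

end Pool.Agent.P8H93.GO
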